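import Pool.Agent.R2.TadMain

/-!
# Tadpoles with long tails are SSP graphs

For all `m ≥ 3`, `n ≥ 1` with `m ≤ 2 n + 3` every matrix of the tadpole `T_{m,n}` has the strong
spectral property. In particular `T_{6,2}` is a unicyclic SSP graph of girth six, and there are
unicyclic SSP graphs of every girth.
-/

set_option autoImplicit false

open Finset

namespace Pool.Agent.Results.MP_34deb4_co.LongTails

/-- the symmetric matrices of a graph: for `i ≠ j` the entry is nonzero exactly on the edges, the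
diagonal is free -/
def InS {V : Type} (G : SimpleGraph V) (A : Matrix V V ℝ) : Prop :=
  A.IsSymm ∧ ∀ i j, i ≠ j → (A i j ≠ 0 ↔ G.Adj i j)

/-- the strong spectral property -/
def HasSSP {V : Type} [Fintype V] (A : Matrix V V ℝ) : Prop :=
  ∀ X : Matrix V V ℝ, X.IsSymm → (∀ i j, A i j * X i j = 0) → (∀ i, X i i = 0) →
    A * X = X * A → X = 0

/-- SSP graphs: every matrix of the graph has the strong spectral property -/
def IsSSPGraph {V : Type} [Fintype V] (G : SimpleGraph V) : Prop :=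
  ∀ A : Matrix V V ℝ, InS G A → HasSSP A

/-- the tadpole `T_{m,n}`: the cycle on `Fin m`, the path on `Fin n` and the bridge joining the
vertex `0` of the cycle to the end vertex `0` of the path -/
def tadpole (m n : ℕ) : SimpleGraph (Fin m ⊕ Fin n) :=
  SimpleGraph.fromRel fun x y =>
    match x, y with
    | .inl i, .inl j => (i.val + 1) % m = j.val
    | .inr i, .inr j => i.val + 1 = j.val
    | .inl i, .inr j => i.val = 0 ∧ j.val = 0
    | .inr _, .inl _ => False

/-- the order leaf, …, path, cycle of the vertices -/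
def φ (m n : ℕ) (hm : 0 < m) (t : ℕ) : Fin m ⊕ Fin n :=
  if h : t < n then .inr ⟨n - 1 - t, by omega⟩
  else if h' : t - n < m then .inl ⟨t - n, h'⟩ else .inl ⟨0, hm⟩

theorem φ_path {m n : ℕ} (hm : 0 < m) {t : ℕ} (h : t < n) :
    φ m n hm t = .inr ⟨n - 1 - t, by omega⟩ := by
  unfold φ; rw [dif_pos h]

theorem φ_cyc {m n : ℕ} (hm : 0 < m) {t : ℕ} (h : n ≤ t) (h' : t < n + m) :
    φ m n hm t = .inl ⟨t - n, by omega⟩ := by
  unfold φ; rw [dif_neg (by omega), dif_pos (by omega)]

theorem sum_φ {m n : ℕ} (hm : 0 < m) (F : Fin m ⊕ Fin n → ℝ) :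
    ∑ k ∈ range (n + m), F (φ m n hm k) = ∑ x, F x := by
  rw [Finset.sum_range_add, Fintype.sum_sum_type, add_comm]
  congr 1
  · rw [Finset.sum_range (n := m)]
    refine Finset.sum_congr rfl fun i _ => ?_
    rw [φ_cyc hm (by omega) (by have := i.2; omega)]
    congr 2
    exact Fin.ext (by simp)
  · rw [Finset.sum_range (n := n)]
    rw [← Equiv.sum_comp Fin.revPerm]
    refine Finset.sum_congr rfl fun i _ => ?_
    rw [φ_path hm (Fin.is_lt _)]
    congr 2
    refine Fin.ext ?_
    simp only [Fin.revPerm_apply, Fin.val_rev]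
    have := i.2
    omega

theorem adj_cc {m n : ℕ} (hm : 3 ≤ m) (i j : Fin m) :
    (tadpole m n).Adj (.inl i) (.inl j) ↔
      i.1 + 1 = j.1 ∨ j.1 + 1 = i.1 ∨ (i.1 = 0 ∧ j.1 + 1 = m) ∨ (j.1 = 0 ∧ i.1 + 1 = m) := by
  have hi := i.2
  have hj := j.2
  have e : ∀ a : ℕ, a < m → ((a + 1) % m = if a + 1 = m then 0 else a + 1) := by
    intro a ha
    split_ifs with h
    · rw [h, Nat.mod_self]
    · exact Nat.mod_eq_of_lt (by omega)
  unfold tadpole
  rw [SimpleGraph.fromRel_adj]
  simp only [ne_eq, Sum.inl.injEq, Fin.ext_iff]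
  rw [e _ hi, e _ hj]
  split_ifs <;> omega

theorem adj_pp {m n : ℕ} (i j : Fin n) :
    (tadpole m n).Adj (.inr i) (.inr j) ↔ i.1 + 1 = j.1 ∨ j.1 + 1 = i.1 := by
  unfold tadpole
  rw [SimpleGraph.fromRel_adj]
  simp only [ne_eq, Sum.inr.injEq, Fin.ext_iff]
  omega

theorem adj_pc {m n : ℕ} (i : Fin n) (j : Fin m) :
    (tadpole m n).Adj (.inr i) (.inl j) ↔ i.1 = 0 ∧ j.1 = 0 := by
  unfold tadpole
  rw [SimpleGraph.fromRel_adj]
  simp only [ne_eq, reduceCtorEq, not_false_eq_true, true_and, false_or]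
  exact and_comm

/-- **For `3 ≤ m ≤ 2 n + 3` and `n ≥ 1` the tadpole `T_{m,n}` is an SSP graph.** -/
theorem result : ∀ m n : ℕ, 3 ≤ m → 1 ≤ n → m ≤ 2 * n + 3 → IsSSPGraph (tadpole m n) := by
  intro m n hm hn hmn A hA X hXs hAX hX0 hc
  obtain ⟨hAs, hAE⟩ := hA
  have hm0 : 0 < m := by omega
  obtain ⟨M, rfl⟩ : ∃ M, m = M + 1 := ⟨m - 1, by omega⟩
  have nz : ∀ x y, (tadpole (M + 1) n).Adj x y → A x y ≠ 0 := fun x y h => (hAE x y h.ne).2 h
  have zz : ∀ x y, x ≠ y → ¬ (tadpole (M + 1) n).Adj x y → A x y = 0 := by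
    intro x y h h'
    by_contra hne
    exact h' ((hAE x y h).1 hne)
  have xz : ∀ x y, (tadpole (M + 1) n).Adj x y → X x y = 0 := fun x y h =>
    (mul_eq_zero.1 (hAX x y)).resolve_left (nz x y h)
  set f := φ (M + 1) n hm0 with hf
  -- adjacency of consecutive vertices
  have adj1 : ∀ i, i + 1 < n + 1 + M → (tadpole (M + 1) n).Adj (f i) (f (i + 1)) := by
    intro i hi
    rcases Nat.lt_or_ge (i + 1) n with h1 | h1
    · rw [hf, φ_path hm0 (by omega : i < n), φ_path hm0 h1, adj_pp]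
      simp only
      omega
    rcases Nat.lt_or_ge i n with h2 | h2
    · rw [hf, φ_path hm0 h2, φ_cyc hm0 h1 (by omega), adj_pc]
      simp only
      omega
    · rw [hf, φ_cyc hm0 h2 (by omega), φ_cyc hm0 h1 (by omega), adj_cc hm]
      simp only
      omega
  have adjc : (tadpole (M + 1) n).Adj (f n) (f (n + M)) := by
    rw [hf, φ_cyc hm0 le_rfl (by omega), φ_cyc hm0 (by omega) (by omega), adj_cc hm]
    simp only
    omega
  have nadj : ∀ i j, i + 1 < j → j < n + 1 + M → ¬ (i = n ∧ j = n + M) →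
      f i ≠ f j ∧ ¬ (tadpole (M + 1) n).Adj (f i) (f j) := by
    intro i j hij hj hne
    rcases Nat.lt_or_ge j n with h1 | h1
    · rw [hf, φ_path hm0 (by omega : i < n), φ_path hm0 h1, adj_pp]
      simp only [ne_eq, Sum.inr.injEq, Fin.mk.injEq]
      omega
    rcases Nat.lt_or_ge i n with h2 | h2
    · rw [hf, φ_path hm0 h2, φ_cyc hm0 h1 (by omega), adj_pc]
      simp only [ne_eq, reduceCtorEq, not_false_eq_true, true_and]
      omega
    · rw [hf, φ_cyc hm0 h2 (by omega), φ_cyc hm0 h1 (by omega), adj_cc hm]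
      simp only [ne_eq, Sum.inl.injEq, Fin.mk.injEq]
      omega
  have key := R2.TadMain.all_zero (A := fun i j => A (f i) (f j)) (X := fun i j => X (f i) (f j))
    (n := n) (M := M)
    (fun i j => (hAs.apply (f j) (f i)).trans rfl) (fun i j => (hXs.apply (f j) (f i)).trans rfl)
    (fun i j h1 h2 h3 => zz _ _ (nadj i j h1 h2 h3).1 (nadj i j h1 h2 h3).2)
    (fun i h => nz _ _ (adj1 i h)) (fun i => hX0 _) (fun i h => xz _ _ (adj1 i h))
    (fun i j _ _ => by
      have h := congrFun (congrFun hc (f i)) (f j)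
      rw [Matrix.mul_apply, Matrix.mul_apply, ← sum_φ hm0, ← sum_φ hm0] at h
      rw [show n + 1 + M = n + (M + 1) by omega]
      exact h)
    (nz _ _ adjc) (xz _ _ adjc) hn (by omega) (by omega)
  have surj : ∀ x, ∃ t, t < n + 1 + M ∧ f t = x := by
    rintro (i | i)
    · refine ⟨n + i.1, by have := i.2; omega, ?_⟩
      rw [hf, φ_cyc hm0 (by omega) (by have := i.2; omega)]
      congr 1
      exact Fin.ext (by simp)
    · refine ⟨n - 1 - i.1, by omega, ?_⟩
      rw [hf, φ_path hm0 (by have := i.2; omega)]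
      congr 1
      refine Fin.ext ?_
      have := i.2
      simp only
      omega
  ext x y
  obtain ⟨i, hi, rfl⟩ := surj x
  obtain ⟨j, hj, rfl⟩ := surj y
  exact key i j hi hj

end Pool.Agent.Results.MP_34deb4_co.LongTails
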